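import Pool.Agent.J6H94.AP.Stm

/-!
# Module AP-STEP: iterating the recursion
-/

set_option autoImplicit false

namespace Pool.Agent.J6H39.AP

open Pool.Agent.J6H94.AP

theorem stepA {r M : ℝ} {Z : Set ℝ} (hr : 0 < r) (hr1 : r < 1) (hM : 0 < M)
    (hyp : ∀ y ∈ Z, ∃ s ∈ Z, s + r * √(s ^ 2 + M) = y ∧ s + √(s ^ 2 + M) / r ∈ Z)
    {y : ℝ} (hy : y ∈ Z) (hy0 : 0 < y) : ∃ t ∈ Z, 0 < t ∧ t ^ 2 + M = (y ^ 2 + M) / r ^ 2 := by
  obtain ⟨s, _, h1, h2⟩ := hyp y hy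
  have hpos : 0 < s ^ 2 + M := by positivity
  have hH : 0 < √(s ^ 2 + M) := Real.sqrt_pos.mpr hpos
  have hH2 : √(s ^ 2 + M) ^ 2 = s ^ 2 + M := Real.sq_sqrt hpos.le
  set H := √(s ^ 2 + M) with hHdef
  refine ⟨s + H / r, h2, ?_, ?_⟩
  · have h3 : r * H ≤ H / r := by
      rw [le_div_iff₀ hr]
      nlinarith [mul_pos hr hH, mul_pos hr hr]
    linarith
  · have hrt : r * (s + H / r) = r * s + H := by
      field_simp
    rw [eq_div_iff (by positivity)]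
    have h4 : ((s + H / r) ^ 2 + M) * r ^ 2 = (r * (s + H / r)) ^ 2 + M * r ^ 2 := by ring
    rw [h4, hrt, ← h1]
    linear_combination (1 - r ^ 2) * hH2

theorem stepB {r M c : ℝ} {Z : Set ℝ} (hr : 0 < r) (hM : 0 < M) (hc : c * (2 + r) = (1 + r) * M)
    (hr1 : r < 1)
    (hyp : ∀ y ∈ Z, ∃ s ∈ Z, s + r * √(s ^ 2 + M) = y ∧ s + √(s ^ 2 + M) / r ∈ Z)
    {y : ℝ} (hy : y ∈ Z) (hy0 : 0 < y) (hyM : r ^ 2 * M < y ^ 2) :
    ∃ s ∈ Z, 0 < s ∧ (y ^ 2 + c) / (1 + r) ^ 2 ≤ s ^ 2 + c ∧ s ^ 2 ≤ y ^ 2 / (1 + r) ^ 2 := by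
  obtain ⟨s, hs, h1, _⟩ := hyp y hy
  have hpos : 0 < s ^ 2 + M := by positivity
  have hH : 0 < √(s ^ 2 + M) := Real.sqrt_pos.mpr hpos
  have hH2 : √(s ^ 2 + M) ^ 2 = s ^ 2 + M := Real.sq_sqrt hpos.le
  have hHs : |s| ≤ √(s ^ 2 + M) := by
    apply Real.le_sqrt_of_sq_le
    rw [sq_abs]
    linarith
  set H := √(s ^ 2 + M) with hHdef
  have hs0 : 0 < s := by
    by_contra hn
    push Not at hn
    have h3 : -s ≤ H := le_trans (neg_le_abs s) hHs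
    have h4 : s * y ≤ 0 := mul_nonpos_of_nonpos_of_nonneg hn hy0.le
    have h5 : 0 ≤ H + r * s := by nlinarith
    have h6 : r * s * (H + r * s) ≤ 0 :=
      mul_nonpos_of_nonpos_of_nonneg (mul_nonpos_of_nonneg_of_nonpos hr.le hn) h5
    have h7 : y ^ 2 = s * y + r * s * (H + r * s) + r ^ 2 * M := by
      rw [← h1]
      linear_combination r ^ 2 * hH2
    linarith
  have hHs' : s ≤ H := le_trans (le_abs_self s) hHs
  refine ⟨s, hs, hs0, ?_, ?_⟩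
  · rw [div_le_iff₀ (by positivity)]
    have h3 : 2 * (s * H) ≤ s ^ 2 + H ^ 2 := by nlinarith [sq_nonneg (s - H)]
    have h4 : y ^ 2 = s ^ 2 + r * (2 * (s * H)) + r ^ 2 * H ^ 2 := by
      rw [← h1]; ring
    have h5 : r * (2 * (s * H)) ≤ r * (s ^ 2 + H ^ 2) := mul_le_mul_of_nonneg_left h3 hr.le
    rw [h4]
    have h6 : c * (r * (2 + r)) = r * (1 + r) * M := by
      linear_combination r * hc
    rw [hH2] at h5 ⊢
    nlinarith [h5, h6]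
  · rw [le_div_iff₀ (by positivity)]
    have h3 : s * (1 + r) ≤ y := by
      rw [← h1]
      nlinarith
    have h4 : 0 ≤ s * (1 + r) := by positivity
    calc s ^ 2 * (1 + r) ^ 2 = (s * (1 + r)) ^ 2 := by ring
      _ ≤ y ^ 2 := pow_le_pow_left₀ h4 h3 2

theorem iterA {r M : ℝ} {Z : Set ℝ} (hr : 0 < r) (hr1 : r < 1) (hM : 0 < M)
    (hyp : ∀ y ∈ Z, ∃ s ∈ Z, s + r * √(s ^ 2 + M) = y ∧ s + √(s ^ 2 + M) / r ∈ Z)
    {y : ℝ} (hy : y ∈ Z) (hy0 : 0 < y) (q : ℕ) :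
    ∃ t ∈ Z, 0 < t ∧ t ^ 2 + M = (y ^ 2 + M) / (r ^ 2) ^ q := by
  induction q with
  | zero => exact ⟨y, hy, hy0, by simp⟩
  | succ q ih =>
    obtain ⟨t, ht, ht0, h⟩ := ih
    obtain ⟨t', ht', ht0', h'⟩ := stepA hr hr1 hM hyp ht ht0
    refine ⟨t', ht', ht0', ?_⟩
    rw [h', h, pow_succ (r ^ 2) q, div_div]

theorem iterB {r M c : ℝ} {Z : Set ℝ} (hr : 0 < r) (hM : 0 < M) (hc : c * (2 + r) = (1 + r) * M)
    (hr1 : r < 1) (hc0 : 0 < c)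
    (hyp : ∀ y ∈ Z, ∃ s ∈ Z, s + r * √(s ^ 2 + M) = y ∧ s + √(s ^ 2 + M) / r ∈ Z)
    {t : ℝ} (ht : t ∈ Z) (ht0 : 0 < t) (p : ℕ)
    (hbig : r ^ 2 * M + c < (t ^ 2 + c) / ((1 + r) ^ 2) ^ p) :
    ∀ j ≤ p, ∃ s ∈ Z, 0 < s ∧ (t ^ 2 + c) / ((1 + r) ^ 2) ^ j ≤ s ^ 2 + c ∧
      s ^ 2 ≤ t ^ 2 / ((1 + r) ^ 2) ^ j := by
  intro j
  induction j with
  | zero => intro _; exact ⟨t, ht, ht0, by simp, by simp⟩
  | succ j ih =>
    intro hj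
    obtain ⟨s, hs, hs0, h1, h2⟩ := ih (by omega)
    have h3 : (t ^ 2 + c) / ((1 + r) ^ 2) ^ p ≤ (t ^ 2 + c) / ((1 + r) ^ 2) ^ j := by
      apply div_le_div_of_nonneg_left (by positivity) (by positivity)
      apply pow_le_pow_right₀ _ (by omega)
      nlinarith
    obtain ⟨s', hs', hs0', h1', h2'⟩ := stepB hr hM hc hr1 hyp hs hs0 (by linarith)
    have hp2 : (0 : ℝ) < (1 + r) ^ 2 := by positivity
    refine ⟨s', hs', hs0', ?_, ?_⟩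
    · rw [pow_succ ((1 + r) ^ 2) j, ← div_div]
      exact le_trans (div_le_div_of_nonneg_right h1 hp2.le) h1'
    · rw [pow_succ ((1 + r) ^ 2) j, ← div_div]
      exact le_trans h2' (div_le_div_of_nonneg_right h2 hp2.le)

theorem step : S_step := by
  intro r M Z hr hr1 hM hyp p q hp hΛ y hy hy0 hyM
  obtain ⟨c, hcdef⟩ : ∃ c : ℝ, c = (1 + r) * M / (2 + r) := ⟨_, rfl⟩
  have hc : c * (2 + r) = (1 + r) * M := by
    rw [hcdef]; field_simp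
  have hc0 : 0 < c := by rw [hcdef]; positivity
  have hcM : c < M := by
    rw [hcdef, div_lt_iff₀ (by positivity)]
    nlinarith
  obtain ⟨t, ht, ht0, hteq⟩ := iterA hr hr1 hM hyp hy hy0 q
  have hr2 : (0 : ℝ) < (r ^ 2) ^ q := by positivity
  have hp2 : (0 : ℝ) < ((1 + r) ^ 2) ^ p := by positivity
  have hP1 : 1 < ((1 + r) ^ 2) ^ p := by
    apply one_lt_pow₀ _ (by omega)
    nlinarith
  have hΛ2 : ((1 / r) ^ q / (1 + r) ^ p) ^ 2 = 1 / ((r ^ 2) ^ q * ((1 + r) ^ 2) ^ p) := by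
    rw [div_pow, div_pow, one_pow, div_pow, one_pow, ← pow_mul, ← pow_mul, ← pow_mul, ← pow_mul,
      div_div, mul_comm q 2, mul_comm p 2]
  have hkey : (t ^ 2 + M) / ((1 + r) ^ 2) ^ p = ((1 / r) ^ q / (1 + r) ^ p) ^ 2 * (y ^ 2 + M) := by
    rw [hteq, hΛ2]
    field_simp
  have hΛ1 : y ^ 2 + M ≤ ((1 / r) ^ q / (1 + r) ^ p) ^ 2 * (y ^ 2 + M) := by
    have : (1 : ℝ) ≤ ((1 / r) ^ q / (1 + r) ^ p) ^ 2 := one_le_pow₀ hΛ
    have h0 : 0 < y ^ 2 + M := by positivity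
    nlinarith
  have hbig : y ^ 2 + c < (t ^ 2 + c) / ((1 + r) ^ 2) ^ p := by
    have h1 : (t ^ 2 + c) / ((1 + r) ^ 2) ^ p =
        (t ^ 2 + M) / ((1 + r) ^ 2) ^ p - (M - c) / ((1 + r) ^ 2) ^ p := by
      rw [← sub_div]; ring_nf
    have h2 : (M - c) / ((1 + r) ^ 2) ^ p < M - c := div_lt_self (by linarith) hP1
    rw [h1, hkey]
    linarith
  have hr21 : r ^ 2 ≤ 1 := pow_le_one₀ hr.le hr1.le
  have hr2M : r ^ 2 * M ≤ y ^ 2 := by nlinarith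
  obtain ⟨s, hs, hs0, h1, h2⟩ := iterB hr hM hc hr1 hc0 hyp ht ht0 p (by linarith) p le_rfl
  refine ⟨s, hs, hs0, ?_, ?_⟩
  · have h3 : y ^ 2 < s ^ 2 := by linarith
    exact lt_of_pow_lt_pow_left₀ 2 hs0.le h3
  · rw [← hkey]
    refine le_trans h2 (div_le_div_of_nonneg_right ?_ hp2.le)
    linarith

end Pool.Agent.J6H39.AP
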